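import Mathlib

/-!
# Tame automorphisms of `R[x, y]` and their derivatives at fixed points: definitions
-/

set_option autoImplicit false

namespace Pool.Agent.U919.PA

open MvPolynomial

/-- the polynomial ring in two variables -/
abbrev Rg (R : Type) [CommRing R] : Type := MvPolynomial (Fin 2) R

/-- the group of the `R`-algebra automorphisms of `R[x, y]` -/
abbrev Au (R : Type) [CommRing R] : Type := Rg R ≃ₐ[R] Rg R

variable {R : Type} [CommRing R]

/-- `a x + b y + c` -/
noncomputable abbrev lc (a b c : R) : Rg R := C a * X 0 + C b * X 1 + C c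

/-- `a x + p(y)` -/
noncomputable abbrev xp (a : R) (p : Polynomial R) : Rg R := C a * X 0 + Polynomial.aeval (X 1) p

/-- `b y + c` -/
noncomputable abbrev yc (b c : R) : Rg R := C b * X 1 + C c

/-- `g` is affine: `x ↦ a x + b y + e`, `y ↦ c x + d y + f` -/
def IsAffine (g : Au R) : Prop := ∃ a b c d e f : R, g (X 0) = lc a b e ∧ g (X 1) = lc c d f

/-- `g` is triangular: `x ↦ a x + p(y)`, `y ↦ b y + c` -/
def IsTriangular (g : Au R) : Prop :=
  ∃ (a b c : R) (p : Polynomial R), g (X 0) = xp a p ∧ g (X 1) = yc b c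

variable (R)

/-- the group of the tame automorphisms: generated by the affine and the triangular ones -/
noncomputable def tame : Subgroup (Au R) := Subgroup.closure {g | IsAffine g ∨ IsTriangular g}

variable {R}

/-- the image of the point `c` of the plane under the map of the plane given by `g` -/
noncomputable def pt (c : Fin 2 → R) (g : Au R) : Fin 2 → R := fun i => eval c (g (X i))

/-- the matrix of the partial derivatives of `g` at the point `c` -/
noncomputable def jac (c : Fin 2 → R) (g : Au R) : Matrix (Fin 2) (Fin 2) R :=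
  Matrix.of fun k i => eval c (pderiv k (g (X i)))

theorem gC (g : Au R) (a : R) : g (C a) = C a := by
  rw [← MvPolynomial.algebraMap_eq]
  exact g.commutes a

theorem eval_g (c : Fin 2 → R) (g : Au R) (f : Rg R) : eval c (g f) = eval (pt c g) f := by
  induction f using MvPolynomial.induction_on with
  | C a => rw [gC, eval_C, eval_C]
  | add p q hp hq => rw [map_add, map_add, map_add, hp, hq]
  | mul_X p n hp =>
    rw [map_mul, map_mul, map_mul, hp, eval_X]
    rfl

theorem pt_mul (c : Fin 2 → R) (g h : Au R) : pt c (g * h) = pt (pt c g) h := by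
  funext i
  show eval c (g (h (X i))) = _
  rw [eval_g]
  rfl

theorem pt_one (c : Fin 2 → R) : pt c 1 = c := by
  funext i
  simp [pt]

theorem chain (c : Fin 2 → R) (g : Au R) (k : Fin 2) (f : Rg R) :
    eval c (pderiv k (g f)) = jac c g k 0 * eval (pt c g) (pderiv 0 f) +
      jac c g k 1 * eval (pt c g) (pderiv 1 f) := by
  induction f using MvPolynomial.induction_on with
  | C a => simp [gC]
  | add p q hp hq =>
    simp only [map_add, hp, hq]
    ring
  | mul_X p n hp =>
    rw [map_mul, Derivation.leibniz, Derivation.leibniz, Derivation.leibniz]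
    simp only [smul_eq_mul, map_add, map_mul, hp, eval_g, eval_X]
    have h1 : eval c (pderiv k (g (X n))) = jac c g k n := rfl
    rw [h1]
    have h2 : n = 0 ∨ n = 1 := by fin_cases n <;> simp
    rcases h2 with rfl | rfl
    · rw [pderiv_X_self, pderiv_X_of_ne (by decide : (0 : Fin 2) ≠ 1)]
      simp only [map_one, map_zero]
      ring
    · rw [pderiv_X_self, pderiv_X_of_ne (by decide : (1 : Fin 2) ≠ 0)]
      simp only [map_one, map_zero]
      ring

theorem jac_mul (c : Fin 2 → R) (g h : Au R) : jac c (g * h) = jac c g * jac (pt c g) h := by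
  ext k i
  rw [Matrix.mul_apply, Fin.sum_univ_two]
  exact chain c g k (h (X i))

theorem jac_one (c : Fin 2 → R) : jac c (1 : Au R) = 1 := by
  ext k i
  show eval c (pderiv k (X i)) = _
  by_cases h : k = i
  · subst h
    rw [pderiv_X_self, map_one, Matrix.one_apply_eq]
  · rw [pderiv_X_of_ne (Ne.symm h), map_zero, Matrix.one_apply_ne h]

/-- the group of the automorphisms fixing the point `c` -/
noncomputable def fixer (c : Fin 2 → R) : Subgroup (Au R) where
  carrier := {g | pt c g = c}
  one_mem' := pt_one c
  mul_mem' := by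
    intro a b ha hb
    show pt c (a * b) = c
    rw [pt_mul, ha, hb]
  inv_mem' := by
    intro a ha
    have h1 : pt c a = c := ha
    have h2 : pt (pt c a) a⁻¹ = c := by rw [← pt_mul, mul_inv_cancel, pt_one]
    rw [h1] at h2
    exact h2

/-- the derivative at the fixed point `c`, a homomorphism to `GL_2(R)` -/
noncomputable def der (c : Fin 2 → R) : fixer c →* (Matrix (Fin 2) (Fin 2) R)ˣ where
  toFun g :=
    { val := jac c (g : Au R)
      inv := jac c ((g : Au R)⁻¹)
      val_inv := by
        have h : pt c (g : Au R) = c := g.2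
        have h1 := jac_mul c (g : Au R) (g : Au R)⁻¹
        rw [mul_inv_cancel, jac_one, h] at h1
        exact h1.symm
      inv_val := by
        have h : pt c ((g : Au R)⁻¹) = c := inv_mem g.2
        have h1 := jac_mul c ((g : Au R)⁻¹) (g : Au R)
        rw [inv_mul_cancel, jac_one, h] at h1
        exact h1.symm }
  map_one' := by
    apply Units.ext
    exact jac_one c
  map_mul' g h := by
    apply Units.ext
    have h0 : pt c (g : Au R) = c := g.2
    have h1 := jac_mul c (g : Au R) (h : Au R)
    rw [h0] at h1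
    exact h1

/-- the substitution of the images of `g (X i)` over the larger ring -/
noncomputable def sbs {R' : Type} [CommRing R'] (f : R →+* R') (g : Au R) : Rg R' →ₐ[R'] Rg R' :=
  aeval fun i => map f (g (X i))

theorem sbs_map {R' : Type} [CommRing R'] (f : R →+* R') (g : Au R) (P : Rg R) :
    sbs f g (map f P) = map f (g P) := by
  induction P using MvPolynomial.induction_on with
  | C a => rw [gC, map_C, sbs, aeval_C, algebraMap_eq]
  | add p q hp hq => simp only [map_add, hp, hq]
  | mul_X p n hp =>
    rw [map_mul, map_mul, hp, map_X, map_mul, map_mul, sbs, aeval_X]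

theorem sbs_mul {R' : Type} [CommRing R'] (f : R →+* R') (g h : Au R) :
    (sbs f g).comp (sbs f h) = sbs f (g * h) := by
  apply MvPolynomial.algHom_ext
  intro i
  rw [AlgHom.comp_apply]
  conv_lhs => rw [sbs]
  conv_rhs => rw [sbs]
  rw [aeval_X]
  have h1 : sbs f h (X i) = map f (h (X i)) := by rw [sbs, aeval_X]
  rw [h1]
  exact sbs_map f g (h (X i))

theorem sbs_one {R' : Type} [CommRing R'] (f : R →+* R') : sbs f (1 : Au R) = AlgHom.id R' (Rg R') := by
  apply MvPolynomial.algHom_ext
  intro i
  rw [sbs, aeval_X, AlgHom.id_apply]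
  exact map_X f i

theorem sbs_left {R' : Type} [CommRing R'] (f : R →+* R') (g : Au R) :
    (sbs f g).comp (sbs f g⁻¹) = AlgHom.id R' (Rg R') := by
  rw [sbs_mul, mul_inv_cancel, sbs_one]

theorem sbs_right {R' : Type} [CommRing R'] (f : R →+* R') (g : Au R) :
    (sbs f g⁻¹).comp (sbs f g) = AlgHom.id R' (Rg R') := by
  rw [sbs_mul, inv_mul_cancel, sbs_one]

/-- the automorphism over a larger ring with the same coefficients -/
noncomputable def bcE {R' : Type} [CommRing R'] (f : R →+* R') (g : Au R) : Au R' :=
  AlgEquiv.ofAlgHom (sbs f g) (sbs f g⁻¹) (sbs_left f g) (sbs_right f g)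

theorem bcE_one {R' : Type} [CommRing R'] (f : R →+* R') : bcE f (1 : Au R) = 1 := by
  apply AlgEquiv.coe_toAlgHom_injective
  exact sbs_one f

theorem bcE_mul {R' : Type} [CommRing R'] (f : R →+* R') (g h : Au R) :
    bcE f (g * h) = bcE f g * bcE f h := by
  apply AlgEquiv.coe_toAlgHom_injective
  exact (sbs_mul f g h).symm

/-- the automorphism over a larger ring with the same coefficients, a homomorphism of groups -/
noncomputable def bc {R' : Type} [CommRing R'] (f : R →+* R') : Au R →* Au R' where
  toFun := bcE f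
  map_one' := bcE_one f
  map_mul' := bcE_mul f

/-- the matrix `M` is the derivative at `c` of an element of `H` fixing `c` -/
def IsDer (c : Fin 2 → R) (H : Subgroup (Au R)) (M : (Matrix (Fin 2) (Fin 2) R)ˣ) : Prop :=
  ∃ g ∈ H, pt c g = c ∧ jac c g = M.val

theorem ders_one (c : Fin 2 → R) (H : Subgroup (Au R)) : IsDer c H 1 :=
  ⟨1, one_mem H, pt_one c, jac_one c⟩

theorem ders_mul (c : Fin 2 → R) (H : Subgroup (Au R)) {M N : (Matrix (Fin 2) (Fin 2) R)ˣ}
    (hM : IsDer c H M) (hN : IsDer c H N) : IsDer c H (M * N) := by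
  obtain ⟨g, hg, h1, h2⟩ := hM
  obtain ⟨g', hg', h1', h2'⟩ := hN
  refine ⟨g * g', mul_mem hg hg', ?_, ?_⟩
  · rw [pt_mul, h1, h1']
  · rw [jac_mul, h1, h2, h2', Units.val_mul]

theorem ders_inv (c : Fin 2 → R) (H : Subgroup (Au R)) {M : (Matrix (Fin 2) (Fin 2) R)ˣ}
    (hM : IsDer c H M) : IsDer c H M⁻¹ := by
  obtain ⟨g, hg, h1, h2⟩ := hM
  have h3 : pt c g⁻¹ = c := (fixer c).inv_mem (x := g) h1
  refine ⟨g⁻¹, inv_mem hg, h3, ?_⟩
  have h4 := jac_mul c g g⁻¹
  rw [mul_inv_cancel, jac_one, h1, h2] at h4
  exact (left_inv_eq_right_inv M.inv_mul h4.symm).symm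

/-- the derivatives at the point `c` of the elements of `H` fixing `c` -/
noncomputable def ders (c : Fin 2 → R) (H : Subgroup (Au R)) :
    Subgroup (Matrix (Fin 2) (Fin 2) R)ˣ where
  carrier := {M | IsDer c H M}
  one_mem' := ders_one c H
  mul_mem' := ders_mul c H
  inv_mem' := ders_inv c H

end Pool.Agent.U919.PA
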