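import Pool.Agent.U919.PA.Main

/-!
# Groups of tame automorphisms with a finite orbit
-/

set_option autoImplicit false

namespace Pool.Agent.U919.PA

open Pool.Agent.Y110.FJ (ClosedE)
open Pool.Agent.Y462.SS (Closed)
open Pool.Agent.U919.GE (G2 GE2 C_G2_int)
open Pool.Agent.U919.GE.Law (Cl InC)
open Law

section orbit

variable {R R' : Type} [CommRing R] [CommRing R'] (f : R →+* R') (c : Fin 2 → R')

/-- the action of `H` on the plane over the larger ring -/
@[reducible] noncomputable def act (H : Subgroup (Au R)) : MulAction H (Fin 2 → R') where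
  smul g p := pt p (bc f ((g⁻¹ : H) : Au R))
  one_smul p := by
    show pt p (bc f (((1 : H)⁻¹ : H) : Au R)) = p
    rw [inv_one, Subgroup.coe_one, map_one, pt_one]
  mul_smul a b p := by
    show pt p (bc f (((a * b)⁻¹ : H) : Au R)) = pt (pt p (bc f ((b⁻¹ : H) : Au R))) (bc f ((a⁻¹ : H) : Au R))
    rw [← pt_mul, ← map_mul, mul_inv_rev, Subgroup.coe_mul]

theorem finite_index (H : Subgroup (Au R)) (h : (orb f c H).Finite) :
    ((stab f c H).subgroupOf H).FiniteIndex := by
  letI := act f H
  have h1 : MulAction.orbit H c = orb f c H := by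
    ext p
    constructor
    · rintro ⟨g, rfl⟩
      exact ⟨_, (g⁻¹ : H).2, rfl⟩
    · rintro ⟨g, hg, rfl⟩
      refine ⟨(⟨g, hg⟩ : H)⁻¹, ?_⟩
      show pt c (bc f ((((⟨g, hg⟩ : H)⁻¹)⁻¹ : H) : Au R)) = _
      rw [inv_inv]
  have h2 : MulAction.stabilizer H c ≤ (stab f c H).subgroupOf H := by
    intro g hg
    have h3 : pt c (bc f ((g⁻¹ : H) : Au R)) = c := hg
    have h4 : (g⁻¹ : H) ∈ (stab f c H).subgroupOf H := by
      rw [Subgroup.mem_subgroupOf]
      exact ⟨(g⁻¹ : H).2, h3⟩
    exact (Subgroup.inv_mem_iff _).1 h4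
  have h5 : (MulAction.stabilizer H c).FiniteIndex := by
    constructor
    rw [MulAction.index_stabilizer, h1]
    have hne : (orb f c H).Nonempty := ⟨pt c (bc f 1), 1, one_mem _, rfl⟩
    exact (Set.ncard_pos h).2 hne |>.ne'
  exact Subgroup.finiteIndex_of_le h2

end orbit

section dom

variable {K : ∀ (G : Type) [Group G], Prop}

theorem finite_orbits (hK : Cl K) : FiniteOrbits K := by
  intro R R' _ _ _ f hf c H hH ho hd
  obtain ⟨hC, hM⟩ := hK
  have h1 : InA K (stab f c H) := by
    refine fixed_point_ext hC hM f hf c (stab f c H) (inf_le_left.trans hH) ?_ hd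
    rw [Subgroup.map_le_iff_le_comap]
    exact inf_le_right
  have h2 := finite_index f c H ho
  refine hC.base.finiteIndex H ((stab f c H).subgroupOf H) h2 ?_
  refine hC.base.of_injective _ _ (Subgroup.subgroupOfEquivOfLe (inf_le_left : stab f c H ≤ H)).toMonoidHom
    (Subgroup.subgroupOfEquivOfLe _).injective h1

theorem small (hK : Cl K) : SmallDerivatives K := by
  intro R R' _ _ _ f hf c H hH ho hd
  refine finite_orbits hK R R' f hf c H hH ho ?_
  obtain ⟨hC, hM⟩ := hK
  rcases hd with hd | hd
  · have h0 : K Unit := hM Unit (by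
      rw [eq_bot_iff]
      intro x _
      exact Subgroup.mem_bot.2 rfl)
    refine hC.base.finiteIndex _ (⊥ : Subgroup (dstab f c H)) inferInstance ?_
    refine hC.base.of_injective _ Unit 1 ?_ h0
    intro a b _
    exact Subsingleton.elim _ _
  · exact hM _ hd

theorem mem_orb_one {R : Type} [CommRing R] (c : Fin 2 → R) (H : Subgroup (Au R)) (h : H ≤ fixer c) :
    (orb (RingHom.id R) c H).Finite := by
  refine (Set.finite_singleton c).subset ?_
  rintro p ⟨g, hg, rfl⟩
  have h1 : pt c g = c := h hg
  have h2 : bc (RingHom.id R) g = g := by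
    apply ext_of
    · rw [bc_X, MvPolynomial.map_id]
    · rw [bc_X, MvPolynomial.map_id]
  rw [h2, h1]
  rfl

theorem all_of (hK : Cl K) (R : Type) [CommRing R] [IsDomain R] (h : K (G2 R)) : AllOrbits K R := by
  intro c H hH ho
  refine finite_orbits hK R R (RingHom.id R) Function.injective_id c H hH ho ?_
  exact hK.closed.base.of_injective _ _ (Subgroup.subtype _) (Subgroup.subtype_injective _) h

theorem stabilizers (hK : Cl K) : Stabilizers K := by
  intro R _ _ c
  have h1 : InA K (tame R ⊓ fixer c) ↔ K (G2 R) := stab_iff hK.closed hK.metabelian c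
  refine ⟨h1, ?_, all_of hK R⟩
  intro h
  exact h1.1 (h c _ inf_le_left (mem_orb_one c _ inf_le_right))

theorem G2_poly (hK : Cl K) (F : Type) [Field F] [Finite F] : K (G2 (Polynomial F)) := by
  obtain ⟨hC, hM⟩ := hK
  have h0 : K Unit := hM Unit (by
    rw [eq_bot_iff]
    intro x _
    exact Subgroup.mem_bot.2 rfl)
  have hfin : ∀ (G : Type) [Group G] [Finite G], K G := by
    intro G _ _
    refine hC.base.finiteIndex _ (⊥ : Subgroup G) inferInstance ?_
    refine hC.base.of_injective _ Unit 1 ?_ h0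
    intro a b _
    exact Subsingleton.elim _ _
  have h1 : K (GE2 F) := by
    haveI : Finite (G2 F) := Finite.of_injective (fun g : G2 F => g.val) (fun a b h => Units.ext h)
    exact hfin _
  have h2 := (Pool.Agent.U919.GE.GE2_iff hC hM (Pool.Agent.U919.GE.degreeOver_poly F)).1 h1
  rw [Pool.Agent.U919.GE.GE2_poly_top F] at h2
  exact hC.base.of_injective _ _ (Subgroup.topEquiv (G := G2 (Polynomial F))).symm.toMonoidHom
    (Subgroup.topEquiv (G := G2 (Polynomial F))).symm.injective h2

theorem rings (hK : Cl K) : Rings K := by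
  refine ⟨all_of hK ℤ (C_G2_int hK.closed.base), ?_⟩
  intro F _ _
  exact all_of hK _ (G2_poly hK F)

end dom

end Pool.Agent.U919.PA
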