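import Pool.Agent.U919.PA.Defs

/-!
# The groups of the affine and of the triangular automorphisms
-/

set_option autoImplicit false

namespace Pool.Agent.U919.PA

open MvPolynomial

variable {R : Type} [CommRing R]

theorem ext_of {g h : Au R} (h0 : g (X 0) = h (X 0)) (h1 : g (X 1) = h (X 1)) : g = h := by
  apply AlgEquiv.coe_toAlgHom_injective
  apply MvPolynomial.algHom_ext
  intro i
  fin_cases i
  · exact h0
  · exact h1

theorem inv_ap (g : Au R) (Q : Rg R) : (g⁻¹ : Au R) (g Q) = Q := g.symm_apply_apply Q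

theorem inv_of {g : Au R} {P Q : Rg R} (h : g P = Q) : (g⁻¹ : Au R) Q = P := by
  rw [← h, inv_ap]

theorem g_aeval (g : Au R) (P : Rg R) (p : Polynomial R) :
    g (Polynomial.aeval P p) = Polynomial.aeval (g P) p :=
  (Polynomial.aeval_algHom_apply g P p).symm

theorem aeval_lin (b c : R) (p : Polynomial R) :
    Polynomial.aeval (C b * X 1 + C c : Rg R) p =
      Polynomial.aeval (X 1 : Rg R) (p.comp (Polynomial.C b * Polynomial.X + Polynomial.C c)) := by
  rw [Polynomial.aeval_comp]
  congr 1
  simp [MvPolynomial.algebraMap_eq]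

theorem isUnit_det (g : Au R) : IsUnit (jac 0 g).det := by
  have h := jac_mul 0 g g⁻¹
  rw [mul_inv_cancel, jac_one] at h
  exact Matrix.isUnit_det_of_right_inverse h.symm

/-- the affine automorphisms -/
noncomputable def affG (R : Type) [CommRing R] : Subgroup (Au R) where
  carrier := {g | ∃ a b c d e f : R, g (X 0) = C a * X 0 + C b * X 1 + C e ∧
    g (X 1) = C c * X 0 + C d * X 1 + C f}
  one_mem' := ⟨1, 0, 0, 1, 0, 0, by simp, by simp⟩
  mul_mem' := by
    rintro g h ⟨a, b, c, d, e, f, h0, h1⟩ ⟨a', b', c', d', e', f', h0', h1'⟩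
    refine ⟨a' * a + b' * c, a' * b + b' * d, c' * a + d' * c, c' * b + d' * d,
      a' * e + b' * f + e', c' * e + d' * f + f', ?_, ?_⟩
    · rw [AlgEquiv.mul_apply, h0', map_add, map_add, map_mul, map_mul, gC, gC, gC, h0, h1]
      simp only [C_add, C_mul]
      ring
    · rw [AlgEquiv.mul_apply, h1', map_add, map_add, map_mul, map_mul, gC, gC, gC, h0, h1]
      simp only [C_add, C_mul]
      ring
  inv_mem' := by
    rintro g ⟨a, b, c, d, e, f, h0, h1⟩
    have hdet : (jac 0 g).det = a * d - b * c := by
      have e00 : jac 0 g 0 0 = a := by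
        show eval 0 (pderiv 0 (g (X 0))) = a
        rw [h0]
        simp [Derivation.leibniz, pderiv_X_of_ne (by decide : (1 : Fin 2) ≠ 0)]
      have e10 : jac 0 g 1 0 = b := by
        show eval 0 (pderiv 1 (g (X 0))) = b
        rw [h0]
        simp [Derivation.leibniz, pderiv_X_of_ne (by decide : (0 : Fin 2) ≠ 1)]
      have e01 : jac 0 g 0 1 = c := by
        show eval 0 (pderiv 0 (g (X 1))) = c
        rw [h1]
        simp [Derivation.leibniz, pderiv_X_of_ne (by decide : (1 : Fin 2) ≠ 0)]
      have e11 : jac 0 g 1 1 = d := by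
        show eval 0 (pderiv 1 (g (X 1))) = d
        rw [h1]
        simp [Derivation.leibniz, pderiv_X_of_ne (by decide : (0 : Fin 2) ≠ 1)]
      rw [Matrix.det_fin_two, e00, e10, e01, e11]
      ring
    obtain ⟨D, hD⟩ := (isUnit_det g).exists_right_inv
    rw [hdet] at hD
    have hD' := congrArg (C : R → Rg R) hD
    simp only [C_sub, C_mul, C_1] at hD'
    refine ⟨D * d, - (D * b), - (D * c), D * a, D * (b * f - d * e), D * (c * e - a * f),
      inv_of ?_, inv_of ?_⟩
    · simp only [map_add, map_sub, map_mul, map_neg, gC, h0, h1]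
      linear_combination (X 0 : Rg R) * hD'
    · simp only [map_add, map_sub, map_mul, map_neg, gC, h0, h1]
      linear_combination (X 1 : Rg R) * hD'

theorem mem_aff {g : Au R} : g ∈ affG R ↔ ∃ a b c d e f : R, g (X 0) = C a * X 0 + C b * X 1 + C e ∧
    g (X 1) = C c * X 0 + C d * X 1 + C f := Iff.rfl

/-- the triangular automorphisms -/
noncomputable def triG (R : Type) [CommRing R] : Subgroup (Au R) where
  carrier := {g | ∃ (a b c : R) (p : Polynomial R), g (X 0) = C a * X 0 + Polynomial.aeval (X 1) p ∧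
    g (X 1) = C b * X 1 + C c}
  one_mem' := ⟨1, 1, 0, 0, by simp, by simp⟩
  mul_mem' := by
    rintro g h ⟨a, b, c, p, h0, h1⟩ ⟨a', b', c', p', h0', h1'⟩
    refine ⟨a' * a, b' * b, b' * c + c', Polynomial.C a' * p +
      p'.comp (Polynomial.C b * Polynomial.X + Polynomial.C c), ?_, ?_⟩
    · rw [AlgEquiv.mul_apply, h0', map_add (g : Au R), map_mul (g : Au R), gC, g_aeval, h0, h1,
        aeval_lin, map_add (Polynomial.aeval (X 1 : Rg R)), map_mul (Polynomial.aeval (X 1 : Rg R)),
        Polynomial.aeval_C, MvPolynomial.algebraMap_eq, C_mul]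
      ring
    · rw [AlgEquiv.mul_apply, h1', map_add, map_mul, gC, gC, h1]
      simp only [C_add, C_mul]
      ring
  inv_mem' := by
    rintro g ⟨a, b, c, p, h0, h1⟩
    have hdet : (jac 0 g).det = a * b := by
      have hX : (pderiv 0 (X 1 : Rg R)) = 0 := pderiv_X_of_ne (by decide : (1 : Fin 2) ≠ 0)
      have e00 : jac 0 g 0 0 = a := by
        show eval 0 (pderiv 0 (g (X 0))) = a
        rw [h0, map_add, Derivation.map_aeval, hX]
        simp [Derivation.leibniz]
      have e01 : jac 0 g 0 1 = 0 := by
        show eval 0 (pderiv 0 (g (X 1))) = 0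
        rw [h1]
        simp [Derivation.leibniz, hX]
      have e11 : jac 0 g 1 1 = b := by
        show eval 0 (pderiv 1 (g (X 1))) = b
        rw [h1]
        simp [Derivation.leibniz]
      rw [Matrix.det_fin_two, e00, e01, e11]
      ring
    have hu := isUnit_det g
    rw [hdet] at hu
    obtain ⟨a', ha⟩ := (isUnit_of_mul_isUnit_left hu).exists_right_inv
    obtain ⟨b', hb⟩ := (isUnit_of_mul_isUnit_right hu).exists_right_inv
    have ha' := congrArg (C : R → Rg R) ha
    have hb' := congrArg (C : R → Rg R) hb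
    simp only [C_mul, C_1] at ha' hb'
    have hg1 : g (C b' * X 1 + C (-(b' * c))) = X 1 := by
      rw [map_add, map_mul, gC, gC, h1]
      simp only [C_mul, C_neg]
      linear_combination (X 1 : Rg R) * hb'
    refine ⟨a', b', -(b' * c), Polynomial.C (-a') *
      p.comp (Polynomial.C b' * Polynomial.X + Polynomial.C (-(b' * c))), inv_of ?_, inv_of hg1⟩
    rw [map_add, map_mul, gC, map_mul, map_mul, Polynomial.aeval_C, ← aeval_lin, g_aeval, hg1, h0,
      MvPolynomial.algebraMap_eq, gC]
    simp only [C_neg]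
    linear_combination (X 0 : Rg R) * ha'

theorem mem_tri {g : Au R} : g ∈ triG R ↔ ∃ (a b c : R) (p : Polynomial R), g (X 0) = C a * X 0 + Polynomial.aeval (X 1) p ∧
    g (X 1) = C b * X 1 + C c := Iff.rfl

/-- the translation mapping `p` to `c` -/
noncomputable def trans (v : Fin 2 → R) : Au R :=
  AlgEquiv.ofAlgHom (aeval fun i => X i + C (v i)) (aeval fun i => X i - C (v i))
    (by
      apply MvPolynomial.algHom_ext
      intro i
      simp [MvPolynomial.algebraMap_eq])
    (by
      apply MvPolynomial.algHom_ext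
      intro i
      simp [MvPolynomial.algebraMap_eq])

theorem trans_X (v : Fin 2 → R) (i : Fin 2) : trans v (X i) = X i + C (v i) := by
  simp [trans]

theorem trans_aff (v : Fin 2 → R) : trans v ∈ affG R :=
  ⟨1, 0, 0, 1, v 0, v 1, by rw [trans_X]; simp, by rw [trans_X]; simp⟩

theorem trans_tri (v : Fin 2 → R) : trans v ∈ triG R :=
  ⟨1, 1, v 1, Polynomial.C (v 0), by rw [trans_X]; simp [MvPolynomial.algebraMap_eq],
    by rw [trans_X]; simp⟩

theorem pt_trans (v p : Fin 2 → R) : pt p (trans v) = p + v := by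
  funext i
  show eval p (trans v (X i)) = _
  rw [trans_X]
  simp

/-- the tame automorphisms fixing the point `c` -/
theorem tame_fixer (c : Fin 2 → R) : tame R ⊓ fixer c ≤ (affG R ⊓ fixer c) ⊔ (triG R ⊓ fixer c) := by
  have key : ∀ g ∈ tame R, ∀ v, g * trans v ∈ fixer c →
      g * trans v ∈ (affG R ⊓ fixer c) ⊔ (triG R ⊓ fixer c) := by
    have step : ∀ x : Au R, (x ∈ affG R ∨ x ∈ triG R) → ∀ g : Au R, (∀ v, g * trans v ∈ fixer c →
        g * trans v ∈ (affG R ⊓ fixer c) ⊔ (triG R ⊓ fixer c)) →
        ∀ v, g * x * trans v ∈ fixer c →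
          g * x * trans v ∈ (affG R ⊓ fixer c) ⊔ (triG R ⊓ fixer c) := by
      intro x hx g ih v hv
      obtain ⟨w, hw⟩ : ∃ w, g * trans w ∈ fixer c := by
        refine ⟨c - pt c g, ?_⟩
        show pt c (g * trans _) = c
        rw [pt_mul, pt_trans]
        abel
      have h1 := ih w hw
      have h2 : (trans w)⁻¹ * x * trans v ∈ fixer c := by
        have h3 := mul_mem (inv_mem hw) hv
        have e : (g * trans w)⁻¹ * (g * x * trans v) = (trans w)⁻¹ * x * trans v := by group
        rwa [e] at h3
      have h4 : (trans w)⁻¹ * x * trans v ∈ (affG R ⊓ fixer c) ⊔ (triG R ⊓ fixer c) := by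
        rcases hx with hx | hx
        · have h5 : (trans w)⁻¹ * x * trans v ∈ affG R :=
            mul_mem (mul_mem (inv_mem (trans_aff w)) hx) (trans_aff v)
          exact Subgroup.mem_sup_left ⟨h5, h2⟩
        · have h5 : (trans w)⁻¹ * x * trans v ∈ triG R :=
            mul_mem (mul_mem (inv_mem (trans_tri w)) hx) (trans_tri v)
          exact Subgroup.mem_sup_right ⟨h5, h2⟩
      have e : g * x * trans v = (g * trans w) * ((trans w)⁻¹ * x * trans v) := by group
      rw [e]
      exact mul_mem h1 h4
    intro g hg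
    unfold tame at hg
    induction hg using Subgroup.closure_induction_right with
    | one =>
      intro v hv
      rw [one_mul] at hv ⊢
      exact Subgroup.mem_sup_left ⟨trans_aff v, hv⟩
    | mul_right g hg x hx ih =>
      exact step x hx g ih
    | mul_inv_cancel g hg x hx ih =>
      exact step x⁻¹ (hx.imp (fun h => (affG R).inv_mem h)
        (fun h => (triG R).inv_mem h)) g ih
  rintro g ⟨hg, hc⟩
  have h1 := key g hg 0
  have e : trans (0 : Fin 2 → R) = 1 := by
    apply ext_of
    · rw [trans_X]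
      simp
    · rw [trans_X]
      simp
  rw [e, mul_one] at h1
  exact h1 hc

theorem le_tame : affG R ⊔ triG R ≤ tame R :=
  sup_le (fun _ h => Subgroup.subset_closure (Or.inl h))
    (fun _ h => Subgroup.subset_closure (Or.inr h))

end Pool.Agent.U919.PA
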