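import Pool.Agent.U919.PA.Defs
import Pool.Agent.U919.GE.Law

/-!
# Statements on groups of tame automorphisms of `R[x, y]` with a finite orbit
-/

set_option autoImplicit false

namespace Pool.Agent.U919.PA

namespace Law

open Pool.Agent.U919.GE.Law (Cl InC)
open Pool.Agent.U919.GE (G2)

/-- the group `H` of automorphisms of `R[x, y]` is in the class `C` -/
def InA (C : ∀ (G : Type) [Group G], Prop) {R : Type} [CommRing R] (H : Subgroup (Au R)) : Prop := C H

/-- the points to which the elements of `H` move the point `c` of the plane over the ring `R'` -/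
def orb {R R' : Type} [CommRing R] [CommRing R'] (f : R →+* R') (c : Fin 2 → R')
    (H : Subgroup (Au R)) : Set (Fin 2 → R') := {p | ∃ g ∈ H, p = pt c (bc f g)}

/-- the elements of `H` fixing the point `c` of the plane over the ring `R'` -/
noncomputable def stab {R R' : Type} [CommRing R] [CommRing R'] (f : R →+* R') (c : Fin 2 → R')
    (H : Subgroup (Au R)) : Subgroup (Au R) := H ⊓ (fixer c).comap (bc f)

/-- the group of the derivatives at `c` of the elements of `H` fixing `c` -/
noncomputable def dstab {R R' : Type} [CommRing R] [CommRing R'] (f : R →+* R') (c : Fin 2 → R')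
    (H : Subgroup (Au R)) : Subgroup (G2 R') := ders c ((stab f c H).map (bc f))

/-- the group is finite or metabelian -/
def Small {R : Type} [Ring R] (D : Subgroup (G2 R)) : Prop := Finite D ∨ derivedSeries D 2 = ⊥

/-- `R` a subring of a domain `R'`: a group of tame automorphisms of `R[x, y]` with a finite orbit on
the plane over `R'` is in `C` if the group of the derivatives at a point `c` of the orbit of its
elements fixing `c` is -/
def FiniteOrbits (C : ∀ (G : Type) [Group G], Prop) : Prop :=
  ∀ (R R' : Type) [CommRing R] [CommRing R'] [IsDomain R'] (f : R →+* R'), Function.Injective f →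
    ∀ (c : Fin 2 → R') (H : Subgroup (Au R)), H ≤ tame R → (orb f c H).Finite →
      InC C (dstab f c H) → InA C H

/-- it is in `C` if this group of derivatives is finite or metabelian -/
def SmallDerivatives (C : ∀ (G : Type) [Group G], Prop) : Prop :=
  ∀ (R R' : Type) [CommRing R] [CommRing R'] [IsDomain R'] (f : R →+* R'), Function.Injective f →
    ∀ (c : Fin 2 → R') (H : Subgroup (Au R)), H ≤ tame R → (orb f c H).Finite →
      Small (dstab f c H) → InA C H

/-- all groups of tame automorphisms of `R[x, y]` with a finite orbit on the plane over `R` are in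
`C` -/
def AllOrbits (C : ∀ (G : Type) [Group G], Prop) (R : Type) [CommRing R] : Prop :=
  ∀ (c : Fin 2 → R) (H : Subgroup (Au R)), H ≤ tame R → (orb (RingHom.id R) c H).Finite → InA C H

/-- for a domain `R` and a point `c` of the plane over `R` the following are equivalent: the group
`GL_2(R)` is in `C`; the group of the tame automorphisms fixing `c` is in `C`; all groups of tame
automorphisms with a finite orbit on the plane over `R` are in `C` -/
def Stabilizers (C : ∀ (G : Type) [Group G], Prop) : Prop :=
  ∀ (R : Type) [CommRing R] [IsDomain R] (c : Fin 2 → R),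
    (InA C (tame R ⊓ fixer c) ↔ C (G2 R)) ∧ (AllOrbits C R ↔ C (G2 R))

/-- all groups of tame automorphisms of `ℤ[x, y]`, or `F[t][x, y]` over `F[t]` with a finite field `F`,
with a finite orbit on the plane over `ℤ` or `F[t]` are in `C` -/
def Rings (C : ∀ (G : Type) [Group G], Prop) : Prop :=
  AllOrbits C ℤ ∧ ∀ (F : Type) [Field F] [Finite F], AllOrbits C (Polynomial F)

end Law

end Pool.Agent.U919.PA
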