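import Pool.Agent.U919.PA.Grp
import Pool.Agent.U919.GE.Sub

/-!
# Degrees of automorphisms of `R[x, y]`, `R` a domain (after `Pool.Agent.U293.PA.Deg`)
-/

set_option autoImplicit false

namespace Pool.Agent.U919.PA

open MvPolynomial

section dom

variable {R : Type} [CommRing R] [IsDomain R]

/-- total degree -/
abbrev dg (P : Rg R) : ℕ := P.totalDegree

theorem dg_Cmul {a : R} (ha : a ≠ 0) (P : Rg R) : dg (C a * P) = dg P := by
  by_cases hP : P = 0
  · rw [hP, mul_zero]
  · rw [dg, totalDegree_mul_of_isDomain (by rwa [Ne, C_eq_zero]) hP, totalDegree_C, zero_add]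

theorem dg_Cmul_le (a : R) (P : Rg R) : dg (C a * P) ≤ dg P := by
  by_cases ha : a = 0
  · rw [ha, C_0, zero_mul, dg, totalDegree_zero]
    exact Nat.zero_le _
  · exact (dg_Cmul ha P).le

theorem dg_pos {g : Au R} {P : Rg R} (h : ∀ c : R, P ≠ C c) : 1 ≤ dg (g P) := by
  by_contra hn
  have h0 : (g P).totalDegree = 0 := by
    have : dg (g P) = 0 := by omega
    exact this
  rw [totalDegree_eq_zero_iff_eq_C] at h0
  apply h _
  apply g.injective
  rw [h0, gC]

theorem X_ne_C (i : Fin 2) (c : R) : (X i : Rg R) ≠ C c := by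
  intro h
  have h2 := congrArg (eval (fun _ => (0 : R))) h
  have h3 := congrArg (eval (fun _ => (1 : R))) h
  simp at h2 h3
  rw [← h2] at h3
  exact one_ne_zero h3

theorem dg_X_pos (g : Au R) (i : Fin 2) : 1 ≤ dg (g (X i)) := dg_pos (X_ne_C i)

theorem dg_pow (P : Rg R) (n : ℕ) : dg (P ^ n) = n * dg P := by
  by_cases hP : P = 0
  · rw [hP]
    rcases Nat.eq_zero_or_pos n with rfl | hn
    · simp [dg]
    · rw [zero_pow hn.ne']
      simp [dg]
  · induction n with
    | zero => simp [dg]
    | succ n ih =>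
      rw [pow_succ, dg, totalDegree_mul_of_isDomain (pow_ne_zero _ hP) hP]
      change dg (P ^ n) + dg P = _
      rw [ih]
      ring

theorem dg_add_lt {P Q : Rg R} (h : dg P < dg Q) : dg (P + Q) = dg Q :=
  totalDegree_add_eq_right_of_totalDegree_lt h

theorem dg_add_le (P Q : Rg R) : dg (P + Q) ≤ max (dg P) (dg Q) := totalDegree_add P Q

theorem dg_C (a : R) : dg (C a : Rg R) = 0 := totalDegree_C a

theorem dg_aeval {P : Rg R} (hP : 1 ≤ dg P) (p : Polynomial R) :
    dg (Polynomial.aeval P p) = p.natDegree * dg P := by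
  induction hn : p.natDegree using Nat.strong_induction_on generalizing p with
  | _ n ih =>
    rcases Nat.eq_zero_or_pos n with rfl | hpos
    · rw [Polynomial.eq_C_of_natDegree_eq_zero hn, Polynomial.aeval_C, algebraMap_eq, dg_C,
        zero_mul]
    · have hp0 : p ≠ 0 := by
        rintro rfl
        simp at hn
        omega
      have h1 : p = p.eraseLead + Polynomial.C p.leadingCoeff * Polynomial.X ^ p.natDegree :=
        (Polynomial.eraseLead_add_C_mul_X_pow p).symm
      have h2 : dg (Polynomial.aeval P (Polynomial.C p.leadingCoeff * Polynomial.X ^ p.natDegree))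
          = n * dg P := by
        rw [map_mul, map_pow, Polynomial.aeval_C, Polynomial.aeval_X, algebraMap_eq,
          dg_Cmul (Polynomial.leadingCoeff_ne_zero.2 hp0), dg_pow, hn]
      have h3 : p.eraseLead.natDegree < n := by
        have := Polynomial.eraseLead_natDegree_le p
        omega
      have h4 := ih _ h3 p.eraseLead rfl
      have h5 : p.eraseLead.natDegree * dg P < n * dg P := by
        exact Nat.mul_lt_mul_of_pos_right h3 hP
      rw [h1, map_add, dg_add_lt (by rw [h4, h2]; exact h5), h2]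

/-- the degree of an automorphism -/
noncomputable def mx (g : Au R) : ℕ := max (dg (g (X 0))) (dg (g (X 1)))

/-- the degree of its second component -/
noncomputable def my (g : Au R) : ℕ := dg (g (X 1))

theorem mx_pos (g : Au R) : 1 ≤ mx g := le_max_of_le_left (dg_X_pos g 0)

theorem dg_lin_le (g : Au R) (a b e : R) : dg (C a * g (X 0) + C b * g (X 1) + C e) ≤ mx g := by
  refine (dg_add_le _ _).trans (max_le ((dg_add_le _ _).trans (max_le ?_ ?_)) ?_)
  · exact (dg_Cmul_le _ _).trans (le_max_left _ _)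
  · exact (dg_Cmul_le _ _).trans (le_max_right _ _)
  · rw [dg_C]
    exact Nat.zero_le _

theorem mx_mul_le (g : Au R) {a : Au R} (ha : a ∈ affG R) : mx (g * a) ≤ mx g := by
  obtain ⟨u, v, c, d, e, f, h0, h1⟩ := mem_aff.1 ha
  refine max_le ?_ ?_
  · rw [AlgEquiv.mul_apply, h0, map_add, map_add, map_mul, map_mul, gC, gC, gC]
    exact dg_lin_le g _ _ _
  · rw [AlgEquiv.mul_apply, h1, map_add, map_add, map_mul, map_mul, gC, gC, gC]
    exact dg_lin_le g _ _ _

theorem mx_mul (g : Au R) {a : Au R} (ha : a ∈ affG R) : mx (g * a) = mx g := by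
  refine le_antisymm (mx_mul_le g ha) ?_
  have := mx_mul_le (g * a) (inv_mem ha)
  rwa [mul_inv_cancel_right] at this

theorem my_le (g : Au R) {b : Au R} (hb : b ∈ triG R) : my (g * b) ≤ my g := by
  obtain ⟨u, v, c, p, h0, h1⟩ := mem_tri.1 hb
  unfold my
  rw [AlgEquiv.mul_apply, h1, map_add, map_mul, gC, gC]
  refine (dg_add_le _ _).trans (max_le (dg_Cmul_le _ _) ?_)
  rw [dg_C]
  exact Nat.zero_le _

theorem my_mul (g : Au R) {b : Au R} (hb : b ∈ triG R) : my (g * b) = my g := by
  refine le_antisymm (my_le g hb) ?_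
  have := my_le (g * b) (inv_mem hb)
  rwa [mul_inv_cancel_right] at this

/-- a triangular automorphism which is not affine raises the degree -/
theorem big (g : Au R) {b : Au R} (hb : b ∈ triG R) (hg : mx g ≤ my g)
    (hgb : mx (g * b) ≤ my g) : b ∈ affG R := by
  obtain ⟨u, v, c, p, h0, h1⟩ := mem_tri.1 hb
  have hp : p.natDegree ≤ 1 := by
    by_contra hlt
    have hpos := dg_X_pos g 1
    have h2 : dg (g (X 1)) < dg (Polynomial.aeval (g (X 1)) p) := by
      rw [dg_aeval hpos]
      have : 2 ≤ p.natDegree := by omega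
      nlinarith
    have h3 : dg (g (X 0)) ≤ dg (g (X 1)) := (le_max_left _ _).trans hg
    have h4 : dg ((g * b) (X 0)) = dg (Polynomial.aeval (g (X 1)) p) := by
      rw [AlgEquiv.mul_apply, h0, map_add, map_mul, gC, g_aeval,
        dg_add_lt (lt_of_le_of_lt (dg_Cmul_le _ _) (lt_of_le_of_lt h3 h2))]
    have h5 : dg ((g * b) (X 0)) ≤ dg (g (X 1)) := (le_max_left _ _).trans hgb
    omega
  have hp' : p = Polynomial.C (p.coeff 1) * Polynomial.X + Polynomial.C (p.coeff 0) :=
    Polynomial.eq_X_add_C_of_natDegree_le_one hp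
  refine ⟨u, p.coeff 1, 0, v, p.coeff 0, c, ?_, ?_⟩
  · rw [h0]
    conv_lhs => rw [hp']
    simp [MvPolynomial.algebraMap_eq]
    ring
  · rw [h1]
    simp

/-- an affine automorphism between two lower neighbours is triangular -/
theorem low (g : Au R) {a : Au R} (ha : a ∈ affG R) (h : my g < mx g)
    (h' : my (g * a) < mx g) : a ∈ triG R := by
  obtain ⟨u, v, c, d, e, f, h0, h1⟩ := mem_aff.1 ha
  have hg : dg (g (X 0)) = mx g := by
    rcases le_total (dg (g (X 0))) (dg (g (X 1))) with hle | hle
    · exfalso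
      have : mx g = dg (g (X 1)) := max_eq_right hle
      unfold my at h
      omega
    · exact (max_eq_left hle).symm
  have hc : c = 0 := by
    by_contra hc
    have e1 : (g * a) (X 1) = (C d * g (X 1) + C f) + C c * g (X 0) := by
      rw [AlgEquiv.mul_apply, h1, map_add, map_add, map_mul, map_mul, gC, gC, gC]
      ring
    have h2 : dg (C d * g (X 1) + C f) < dg (C c * g (X 0)) := by
      rw [dg_Cmul hc, hg]
      refine lt_of_le_of_lt (dg_add_le _ _) (max_lt (lt_of_le_of_lt (dg_Cmul_le _ _) h) ?_)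
      rw [dg_C]
      have := mx_pos g
      omega
    have h3 : my (g * a) = mx g := by
      unfold my
      rw [e1, dg_add_lt h2, dg_Cmul hc, hg]
    omega
  refine ⟨u, d, f, Polynomial.C v * Polynomial.X + Polynomial.C e, ?_, ?_⟩
  · rw [h0]
    simp [MvPolynomial.algebraMap_eq]
    ring
  · rw [h1, hc]
    simp

theorem base_le {a : Au R} (ha : a ∈ affG R) : mx a ≤ my a := by
  have h1 := mx_mul (1 : Au R) ha
  rw [one_mul] at h1
  have h2 : mx (1 : Au R) = 1 := by
    unfold mx
    simp [dg]
  have h3 := dg_X_pos a 1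
  unfold my
  omega

theorem lvl (c : Fin 2 → R) :
    Pool.Agent.U919.GE.Lvl (affG R ⊓ fixer c) (triG R ⊓ fixer c) mx my where
  hN g a ha := mx_mul g ha.1
  hM g b hb := my_mul g hb.1
  uA g a ha h1 h2 := ⟨low g ha.1 h1 h2, ha.2⟩
  uB g b hb h1 h2 := ⟨big g hb.1 h1 h2, hb.2⟩
  base a ha := base_le ha.1

end dom

end Pool.Agent.U919.PA
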