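import Pool.Agent.U919.PA.Lev
import Pool.Agent.U919.PA.Law
import Pool.Agent.U919.GE.Int

/-!
# Groups of tame automorphisms with a fixed point in the class of Farrell-Jones groups
-/

set_option autoImplicit false

namespace Pool.Agent.U919.PA

open MvPolynomial
open Pool.Agent.Y110.FJ (ClosedE)
open Pool.Agent.Y462.SS (Closed)
open Pool.Agent.U919.GE (GG crit_sub)

section one

variable {R : Type} [CommRing R]

theorem aff_one {c : Fin 2 → R} {x : Au R} (hx : x ∈ affG R) (hc : pt c x = c)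
    (hj : jac c x = 1) : x = 1 := by
  obtain ⟨u, v, c', d, e, f, h0, h1⟩ := mem_aff.1 hx
  have j00 := congrFun (congrFun hj 0) 0
  have j10 := congrFun (congrFun hj 1) 0
  have j01 := congrFun (congrFun hj 0) 1
  have j11 := congrFun (congrFun hj 1) 1
  change eval c (pderiv 0 (x (X 0))) = _ at j00
  change eval c (pderiv 1 (x (X 0))) = _ at j10
  change eval c (pderiv 0 (x (X 1))) = _ at j01
  change eval c (pderiv 1 (x (X 1))) = _ at j11
  rw [h0] at j00 j10
  rw [h1] at j01 j11
  simp [Derivation.leibniz, pderiv_X_of_ne (by decide : (1 : Fin 2) ≠ 0)] at j00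
  simp [Derivation.leibniz, pderiv_X_of_ne (by decide : (0 : Fin 2) ≠ 1)] at j10
  simp [Derivation.leibniz, pderiv_X_of_ne (by decide : (1 : Fin 2) ≠ 0)] at j01
  simp [Derivation.leibniz, pderiv_X_of_ne (by decide : (0 : Fin 2) ≠ 1)] at j11
  subst j00 j10 j01 j11
  have p0 := congrFun hc 0
  have p1 := congrFun hc 1
  change eval c (x (X 0)) = c 0 at p0
  change eval c (x (X 1)) = c 1 at p1
  rw [h0] at p0
  rw [h1] at p1
  simp at p0 p1
  subst p0 p1
  apply ext_of
  · rw [h0]
    simp
  · rw [h1]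
    simp

theorem tri_form {c : Fin 2 → R} {x : Au R} (hx : x ∈ triG R) (hc : pt c x = c)
    (hj : jac c x = 1) : ∃ p : Polynomial R, x (X 0) = X 0 + Polynomial.aeval (X 1) p ∧
      x (X 1) = X 1 := by
  obtain ⟨a, b, c', p, h0, h1⟩ := mem_tri.1 hx
  have hX : (pderiv 0 (X 1 : Rg R)) = 0 := pderiv_X_of_ne (by decide : (1 : Fin 2) ≠ 0)
  have j00 := congrFun (congrFun hj 0) 0
  have j11 := congrFun (congrFun hj 1) 1
  change eval c (pderiv 0 (x (X 0))) = _ at j00
  change eval c (pderiv 1 (x (X 1))) = _ at j11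
  rw [h0, map_add, Derivation.map_aeval, hX] at j00
  rw [h1] at j11
  simp [Derivation.leibniz] at j00 j11
  subst j00 j11
  have p1 := congrFun hc 1
  change eval c (x (X 1)) = c 1 at p1
  rw [h1] at p1
  simp at p1
  subst p1
  refine ⟨p, ?_, ?_⟩
  · rw [h0]
    simp
  · rw [h1]
    simp

theorem tri_comm {x y : Au R} {p q : Polynomial R}
    (hx0 : x (X 0) = X 0 + Polynomial.aeval (X 1) p) (hx1 : x (X 1) = X 1)
    (hy0 : y (X 0) = X 0 + Polynomial.aeval (X 1) q) (hy1 : y (X 1) = X 1) : x * y = y * x := by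
  apply ext_of
  · rw [AlgEquiv.mul_apply, AlgEquiv.mul_apply, hy0, hx0, map_add, map_add, g_aeval, g_aeval,
      hx0, hx1, hy0, hy1]
    ring
  · rw [AlgEquiv.mul_apply, AlgEquiv.mul_apply, hy1, hx1, hy1]

end one

section lin

variable {R : Type} [CommRing R]

/-- the linear automorphisms at the point `c` -/
noncomputable def lin (c : Fin 2 → R) :
    Matrix (Fin 2) (Fin 2) R →* (Rg R →ₐ[R] Rg R) where
  toFun M := aeval fun i => C (M 0 i) * (X 0 - C (c 0)) + C (M 1 i) * (X 1 - C (c 1)) + C (c i)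
  map_one' := by
    apply MvPolynomial.algHom_ext
    intro i
    have h2 : i = 0 ∨ i = 1 := by fin_cases i <;> simp
    rcases h2 with rfl | rfl
    · simp
    · simp
  map_mul' M N := by
    apply MvPolynomial.algHom_ext
    intro i
    rw [AlgHom.mul_apply, aeval_X, aeval_X]
    simp only [map_add, map_mul, map_sub, aeval_X, aeval_C, MvPolynomial.algebraMap_eq,
      Matrix.mul_apply, Fin.sum_univ_two]
    ring

/-- the linear automorphisms at the point `c`, a homomorphism from `GL_2(R)` -/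
noncomputable def linA (c : Fin 2 → R) : (Matrix (Fin 2) (Fin 2) R)ˣ →* Au R :=
  (AlgEquiv.algHomUnitsEquiv R (Rg R)).toMonoidHom.comp (Units.map (lin c))

theorem linA_X (c : Fin 2 → R) (M : (Matrix (Fin 2) (Fin 2) R)ˣ) (i : Fin 2) :
    linA c M (X i) =
      C (M.val 0 i) * (X 0 - C (c 0)) + C (M.val 1 i) * (X 1 - C (c 1)) + C (c i) := by
  simp [linA, lin]

theorem linA_tame (c : Fin 2 → R) (M : (Matrix (Fin 2) (Fin 2) R)ˣ) :
    linA c M ∈ tame R ⊓ fixer c := by
  constructor
  · refine le_tame (Subgroup.mem_sup_left (mem_aff.2 ⟨M.val 0 0, M.val 1 0, M.val 0 1, M.val 1 1,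
      c 0 - M.val 0 0 * c 0 - M.val 1 0 * c 1, c 1 - M.val 0 1 * c 0 - M.val 1 1 * c 1, ?_, ?_⟩))
    · rw [linA_X]
      simp only [C_sub, C_mul]
      ring
    · rw [linA_X]
      simp only [C_sub, C_mul]
      ring
  · show pt c (linA c M) = c
    funext i
    show eval c (linA c M (X i)) = c i
    rw [linA_X]
    simp

theorem linA_inj (c : Fin 2 → R) : Function.Injective (linA c) := by
  intro M N h
  apply Units.ext
  ext k i
  have h1 : linA c M (X i) = linA c N (X i) := by rw [h]
  rw [linA_X, linA_X] at h1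
  have h2 := congrArg (pderiv k) h1
  have h3 : k = 0 ∨ k = 1 := by fin_cases k <;> simp
  rcases h3 with rfl | rfl
  · have h4 := congrArg (eval 0) h2
    simpa [Derivation.leibniz, pderiv_X_of_ne (by decide : (1 : Fin 2) ≠ 0)] using h4
  · have h4 := congrArg (eval 0) h2
    simpa [Derivation.leibniz, pderiv_X_of_ne (by decide : (0 : Fin 2) ≠ 1)] using h4

end lin

section dom

variable {R : Type} [CommRing R] [IsDomain R] {K : ∀ (G : Type) [Group G], Prop}

omit [IsDomain R] in
theorem fixer_top (c : Fin 2 → R) :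
    (affG R ⊓ fixer c) ⊔ (triG R ⊓ fixer c) ≤ fixer c := sup_le inf_le_right inf_le_right

omit [IsDomain R] in
theorem ders_eq (c : Fin 2 → R) (H : Subgroup (Au R)) :
    ders c H = (H.subgroupOf (fixer c)).map (der c) := by
  ext M
  constructor
  · rintro ⟨g, hg, h1, h2⟩
    exact ⟨⟨g, h1⟩, hg, Units.ext h2⟩
  · rintro ⟨g, hg, rfl⟩
    exact ⟨g, hg, g.2, rfl⟩

theorem fixed_point (hC : ClosedE K) (hM : ∀ (G : Type) [Group G], derivedSeries G 2 = ⊥ → K G)
    (c : Fin 2 → R) (H : Subgroup (Au R)) (hH : H ≤ tame R) (hc : H ≤ fixer c)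
    (hD : K ↥(ders c H)) : K H := by
  have hle : H ≤ (affG R ⊓ fixer c) ⊔ (triG R ⊓ fixer c) := (le_inf hH hc).trans (tame_fixer c)
  let f : GG (affG R ⊓ fixer c) (triG R ⊓ fixer c) →* (Matrix (Fin 2) (Fin 2) R)ˣ :=
    (der c).comp (Subgroup.inclusion (fixer_top c))
  let q : H →* ders c H :=
    { toFun := fun h => ⟨der c ⟨h, hc h.2⟩, ⟨h, h.2, hc h.2, rfl⟩⟩
      map_one' := by
        apply Subtype.ext
        exact (der c).map_one
      map_mul' := fun a b => by
        apply Subtype.ext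
        exact (der c).map_mul ⟨a, hc a.2⟩ ⟨b, hc b.2⟩ }
  refine crit_sub hC hM (lvl c) f ?_ ?_ (Subgroup.inclusion hle)
    (Subgroup.inclusion_injective hle) q hD ?_
  · rintro ⟨x, hx⟩ hxA h2
    have h3 : jac c x = 1 := congrArg Units.val h2
    exact Subtype.ext (aff_one hxA.1 hxA.2 h3)
  · rintro ⟨x, hx⟩ ⟨y, hy⟩ hxB hyB h2 h3
    obtain ⟨p, hp0, hp1⟩ := tri_form hxB.1 hxB.2 (congrArg Units.val h2)
    obtain ⟨r, hr0, hr1⟩ := tri_form hyB.1 hyB.2 (congrArg Units.val h3)
    exact Subtype.ext (tri_comm hp0 hp1 hr0 hr1)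
  · intro h hh
    exact congrArg Subtype.val hh

omit [IsDomain R] in
theorem bc_X {R' : Type} [CommRing R'] (f : R →+* R') (g : Au R) (i : Fin 2) :
    bc f g (X i) = map f (g (X i)) := by
  show sbs f g (X i) = _
  rw [sbs, aeval_X]

omit [IsDomain R] in
theorem bc_inj {R' : Type} [CommRing R'] (f : R →+* R') (hf : Function.Injective f) :
    Function.Injective (bc f) := by
  intro g h hgh
  have h1 : ∀ i, g (X i) = h (X i) := fun i => by
    apply map_injective f hf
    rw [← bc_X, ← bc_X, hgh]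
  exact ext_of (h1 0) (h1 1)

omit [IsDomain R] in
theorem map_aeval' {R' : Type} [CommRing R'] (f : R →+* R') (p : Polynomial R) :
    map f (Polynomial.aeval (X 1 : Rg R) p) = Polynomial.aeval (X 1 : Rg R') (p.map f) := by
  induction p using Polynomial.induction_on' with
  | add p q hp hq => simp only [map_add, Polynomial.map_add, hp, hq]
  | monomial n a =>
    rw [Polynomial.aeval_monomial, Polynomial.map_monomial, Polynomial.aeval_monomial, map_mul,
      map_pow, map_X]
    simp [MvPolynomial.algebraMap_eq]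

omit [IsDomain R] in
theorem bc_tame {R' : Type} [CommRing R'] (f : R →+* R') : (tame R).map (bc f) ≤ tame R' := by
  rw [Subgroup.map_le_iff_le_comap]
  conv_lhs => rw [tame]
  rw [Subgroup.closure_le]
  rintro g (⟨u, v, c, d, e, w, h0, h1⟩ | ⟨a, b, c, p, h0, h1⟩)
  · refine Subgroup.subset_closure (Or.inl ⟨f u, f v, f c, f d, f e, f w, ?_, ?_⟩)
    · rw [bc_X, h0]
      simp
    · rw [bc_X, h1]
      simp
  · refine Subgroup.subset_closure (Or.inr ⟨f a, f b, f c, p.map f, ?_, ?_⟩)
    · rw [bc_X, h0, map_add, map_aeval']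
      simp
    · rw [bc_X, h1]
      simp

omit [IsDomain R] in
theorem fixed_point_ext (hC : ClosedE K)
    (hM : ∀ (G : Type) [Group G], derivedSeries G 2 = ⊥ → K G)
    {R' : Type} [CommRing R'] [IsDomain R'] (f : R →+* R') (hf : Function.Injective f)
    (c : Fin 2 → R') (H : Subgroup (Au R)) (hH : H ≤ tame R) (hc : H.map (bc f) ≤ fixer c)
    (hD : K ↥(ders c (H.map (bc f)))) : K H := by
  have h1 : K ↥(H.map (bc f)) :=
    fixed_point hC hM c _ ((Subgroup.map_mono hH).trans (bc_tame f)) hc hD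
  refine hC.base.of_injective _ _ ((bc f).subgroupMap H) ?_ h1
  intro a b hab
  exact Subtype.ext (bc_inj f hf (congrArg Subtype.val hab))

theorem stab_iff (hC : ClosedE K) (hM : ∀ (G : Type) [Group G], derivedSeries G 2 = ⊥ → K G)
    (c : Fin 2 → R) : K ↥(tame R ⊓ fixer c) ↔ K (Matrix (Fin 2) (Fin 2) R)ˣ := by
  constructor
  · intro h
    refine hC.base.of_injective _ _ ((linA c).codRestrict _ (linA_tame c)) ?_ h
    intro a b hab
    exact linA_inj c (congrArg Subtype.val hab)
  · intro h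
    exact fixed_point hC hM c _ inf_le_left inf_le_right
      (hC.base.of_injective _ _ (Subgroup.subtype _) (Subgroup.subtype_injective _) h)

end dom

end Pool.Agent.U919.PA
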